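import Mathlib.LinearAlgebra.Dual.Lemmas
import Mathlib.Tactic.Monotonicity.Lemmas
import Mathlib.Algebra.Field.ZMod
import Mathlib.Algebra.Module.StablyFree.Basic
import Mathlib.Combinatorics.Matroid.Minor.Delete
import Mathlib.Order.CompletePartialOrder

set_option autoImplicit false

open Set

namespace Pool.Agent.MP_6a070e_co

variable {α : Type} [Fintype α] {V : Type} [AddCommGroup V] [Module (ZMod 2) V]

/-- The vector matroid of a finite family of vectors over the field with two elements. -/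
noncomputable def vecM (v : α → V) : Matroid α :=
  (IndepMatroid.ofFinite (E := (univ : Set α)) finite_univ
    (fun I => LinearIndepOn (ZMod 2) v I)
    (linearIndepOn_empty _ _)
    (fun _ _ hJ hIJ => hJ.mono hIJ)
    (by
      classical
      intro I J hI hJ hlt
      by_contra hcon
      push Not at hcon
      have hsub : ∀ e ∈ J, v e ∈ Submodule.span (ZMod 2) (v '' I) := by
        intro e he
        by_cases heI : e ∈ I
        · exact Submodule.subset_span (mem_image_of_mem v heI)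
        · by_contra hn
          exact hcon e he heI ((linearIndepOn_insert heI).2 ⟨hI, hn⟩)
      have h1 := linearIndependent_le_span_aux' (R := ZMod 2) (fun x : J => v x) hJ (v '' I)
        (by rintro _ ⟨⟨e, he⟩, rfl⟩; exact hsub e he)
      have h2 : (v '' I).ncard ≤ I.ncard := ncard_image_le (toFinite I)
      rw [← Nat.card_eq_fintype_card, ← Nat.card_eq_fintype_card, Nat.card_coe_set_eq,
        Nat.card_coe_set_eq] at h1
      omega)
    (fun _ _ => subset_univ _)).matroid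

lemma vecM_E (v : α → V) : (vecM v).E = univ := rfl

lemma vecM_indep (v : α → V) (I : Set α) :
    (vecM v).Indep I ↔ LinearIndepOn (ZMod 2) v I := Iff.rfl

lemma vecM_mem_closure_indep (v : α → V) {I : Set α} (hI : (vecM v).Indep I) (e : α) :
    e ∈ (vecM v).closure I ↔ v e ∈ Submodule.span (ZMod 2) (v '' I) := by
  rw [hI.mem_closure_iff', vecM_E, vecM_indep, linearIndepOn_insert_iff]
  have hI' : LinearIndepOn (ZMod 2) v I := hI
  constructor
  · rintro ⟨-, h⟩
    by_contra hn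
    have heI : e ∈ I := h ⟨hI', fun h' => absurd h' hn⟩
    exact hn (Submodule.subset_span (mem_image_of_mem v heI))
  · intro h
    exact ⟨mem_univ _, fun h' => h'.2 h⟩

lemma vecM_mem_closure (v : α → V) (X : Set α) (e : α) :
    e ∈ (vecM v).closure X ↔ v e ∈ Submodule.span (ZMod 2) (v '' X) := by
  obtain ⟨I, hI⟩ := (vecM v).exists_isBasis X (by rw [vecM_E]; exact subset_univ _)
  rw [← hI.closure_eq_closure, vecM_mem_closure_indep v hI.indep]
  have : Submodule.span (ZMod 2) (v '' I) = Submodule.span (ZMod 2) (v '' X) := by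
    apply le_antisymm
    · exact Submodule.span_mono (image_mono hI.subset)
    · rw [Submodule.span_le]
      rintro _ ⟨x, hx, rfl⟩
      exact (vecM_mem_closure_indep v hI.indep x).1 (hI.subset_closure hx)
  rw [this]

/-- The support of a linear functional on the family. -/
def supp (v : α → V) (f : V →ₗ[ZMod 2] ZMod 2) : Set α := {e | f (v e) ≠ 0}

lemma vecM_not_spanning (v : α → V) (X : Set α) :
    ¬ (vecM v).Spanning ((vecM v).E \ X) ↔
      ∃ f : V →ₗ[ZMod 2] ZMod 2, (supp v f).Nonempty ∧ supp v f ⊆ X := by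
  rw [Matroid.spanning_iff_ground_subset_closure sdiff_subset, vecM_E]
  constructor
  · intro h
    obtain ⟨e, -, he⟩ := not_subset.1 h
    rw [vecM_mem_closure] at he
    obtain ⟨f, hf, hf'⟩ := Submodule.exists_dual_map_eq_bot_of_notMem he inferInstance
    refine ⟨f, ⟨e, hf⟩, fun x hx => ?_⟩
    by_contra hxX
    apply hx
    have : f (v x) ∈ Submodule.map f (Submodule.span (ZMod 2) (v '' (univ \ X))) :=
      Submodule.mem_map_of_mem (Submodule.subset_span (mem_image_of_mem v ⟨mem_univ _, hxX⟩))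
    rw [hf'] at this
    simpa using this
  · rintro ⟨f, ⟨e, he⟩, hX⟩ h
    have h1 := (vecM_mem_closure v _ e).1 (h (mem_univ e))
    have h2 : Submodule.span (ZMod 2) (v '' (univ \ X)) ≤ LinearMap.ker f := by
      rw [Submodule.span_le]
      rintro _ ⟨x, hx, rfl⟩
      by_contra hn
      exact hx.2 (hX hn)
    exact he (h2 h1)

lemma zmod2_ne_zero {a : ZMod 2} (h : a ≠ 0) : a = 1 := by
  revert a; decide

lemma zmod2_add_ne_zero (a b : ZMod 2) : a + b ≠ 0 ↔ (a ≠ 0 ∧ b = 0) ∨ (a = 0 ∧ b ≠ 0) := by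
  revert a b; decide

/-- If any two nonempty supports meet, the cocircuits are exactly the nonempty supports. -/
lemma vecM_isCocircuit (v : α → V)
    (hint : ∀ f g : V →ₗ[ZMod 2] ZMod 2, (supp v f).Nonempty → (supp v g).Nonempty →
      ¬ Disjoint (supp v f) (supp v g)) (K : Set α) :
    (vecM v).IsCocircuit K ↔ ∃ f : V →ₗ[ZMod 2] ZMod 2, (supp v f).Nonempty ∧ K = supp v f := by
  rw [Matroid.isCocircuit_iff_minimal_compl_nonspanning]
  simp only [vecM_not_spanning]
  constructor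
  · intro h
    obtain ⟨f, hf, hfK⟩ := h.prop
    exact ⟨f, hf, (h.eq_of_subset ⟨f, hf, subset_rfl⟩ hfK).symm⟩
  · rintro ⟨f, hf, rfl⟩
    refine ⟨⟨f, hf, subset_rfl⟩, ?_⟩
    rintro Y ⟨g, hg, hgY⟩ hY x hx
    by_contra hxY
    have hxg : x ∉ supp v g := fun h => hxY (hgY h)
    have hne : (supp v (f + g)).Nonempty := by
      refine ⟨x, ?_⟩
      simp only [supp, mem_ofPred_eq, LinearMap.add_apply, zmod2_add_ne_zero] at hx hxg ⊢
      left
      exact ⟨hx, by simpa using hxg⟩
    apply hint (f + g) g hne hg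
    rw [Set.disjoint_left]
    intro y hy hyg
    have hyf : y ∈ supp v f := hY (hgY hyg)
    simp only [supp, mem_ofPred_eq, LinearMap.add_apply, zmod2_add_ne_zero] at hy hyg hyf
    tauto

/-- A circuit of the vector matroid is a nonempty finite set of vectors with sum zero. -/
lemma vecM_isCircuit (v : α → V) {K : Set α} (hK : (vecM v).IsCircuit K) :
    ∃ T : Finset α, T.Nonempty ∧ K = ↑T ∧ ∑ e ∈ T, v e = 0 := by
  have h1 : ¬ LinearIndepOn (ZMod 2) v K := hK.not_indep
  obtain ⟨l, hl, hl0, hne⟩ := linearDepOn_iff.1 h1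
  have hsub : (↑l.support : Set α) ⊆ K := by rwa [Finsupp.mem_supported] at hl
  have hdep : ¬ (vecM v).Indep (↑l.support : Set α) := by
    rw [vecM_indep, linearDepOn_iff]
    exact ⟨l, by rw [Finsupp.mem_supported], hl0, hne⟩
  refine ⟨l.support, Finsupp.support_nonempty_iff.2 hne,
    (hK.eq_of_not_indep_subset hdep hsub).symm, ?_⟩
  rw [← hl0]
  refine Finset.sum_congr rfl fun e he => ?_
  rw [zmod2_ne_zero (Finsupp.mem_support_iff.1 he), one_smul]

lemma even_inter (v : α → V) (f : V →ₗ[ZMod 2] ZMod 2) (T : Finset α)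
    (hT : ∑ e ∈ T, v e = 0) : Even (supp v f ∩ ↑T).ncard := by
  classical
  have h1 : supp v f ∩ ↑T = ↑(T.filter (fun e => f (v e) ≠ 0)) := by
    ext x; simp [supp, and_comm]
  rw [h1, ncard_coe_finset, ← ZMod.natCast_eq_zero_iff_even]
  have h2 : ∑ e ∈ T, f (v e) = 0 := by rw [← map_sum, hT, map_zero]
  rw [Finset.card_filter, Nat.cast_sum]
  refine Eq.trans (Finset.sum_congr rfl fun e _ => ?_) h2
  by_cases h : f (v e) = 0
  · simp [h]
  · rw [if_pos h, zmod2_ne_zero h, Nat.cast_one]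

lemma exists_functional_pair {x y : V} (hx : x ≠ 0) (hy : y ≠ 0) :
    ∃ f : V →ₗ[ZMod 2] ZMod 2, f x ≠ 0 ∧ f y ≠ 0 := by
  obtain ⟨f, hf⟩ := Module.Projective.exists_dual_ne_zero (ZMod 2) hx
  obtain ⟨g, hg⟩ := Module.Projective.exists_dual_ne_zero (ZMod 2) hy
  by_cases h1 : f y = 0
  · by_cases h2 : g x = 0
    · exact ⟨f + g, by simpa [h2] using hf, by simpa [h1] using hg⟩
    · exact ⟨g, h2, hg⟩
  · exact ⟨f, hf, h1⟩

/-- The abstract counterexample: a family of vectors, any four independent, whose code is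
intersecting with every word missing at least two coordinates. -/
theorem counterexample_of (v : α → V) (t : ℕ) (hne : Nonempty α) (h0 : ∀ e, v e ≠ 0)
    (hgirth : ∀ T : Finset α, T.Nonempty → ∑ e ∈ T, v e = 0 → t ≤ T.card)
    (hint : ∀ f g : V →ₗ[ZMod 2] ZMod 2, (supp v f).Nonempty → (supp v g).Nonempty →
      ¬ Disjoint (supp v f) (supp v g))
    (hco : ∀ f : V →ₗ[ZMod 2] ZMod 2, ∃ a b : α, a ≠ b ∧ a ∉ supp v f ∧ b ∉ supp v f) :
    ∃ M : Matroid α, M.E.Nonempty ∧
      (∀ C K : Set α, M.IsCircuit C → M.IsCocircuit K → Even (C ∩ K).ncard) ∧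
      (∀ e ∈ M.E, ∀ f ∈ M.E, e ≠ f → ∃ C : Set α, M.IsCircuit C ∧ e ∈ C ∧ f ∈ C) ∧
      (∀ K : Set α, M.IsCocircuit K → t ≤ K.ncard) ∧
      ¬ ∃ D : Set α, M.IsCircuit D ∧
        ∀ e ∈ (M.delete D).E, ∀ f ∈ (M.delete D).E, e ≠ f →
          ∃ C : Set α, (M.delete D).IsCircuit C ∧ e ∈ C ∧ f ∈ C := by
  have hC : ∀ C : Set α, (vecM v)✶.IsCircuit C ↔
      ∃ f : V →ₗ[ZMod 2] ZMod 2, (supp v f).Nonempty ∧ C = supp v f :=
    fun C => vecM_isCocircuit v hint C
  have hE : (vecM v)✶.E = univ := by rw [Matroid.dual_ground, vecM_E]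
  refine ⟨(vecM v)✶, ?_, ?_, ?_, ?_, ?_⟩
  · rw [hE]; exact univ_nonempty
  · intro C K hCc hK
    obtain ⟨f, -, rfl⟩ := (hC C).1 hCc
    obtain ⟨T, -, rfl, hT⟩ := vecM_isCircuit v (Matroid.dual_isCocircuit_iff.1 hK)
    exact even_inter v f T hT
  · intro e _ e' _ _
    obtain ⟨f, h1, h2⟩ := exists_functional_pair (h0 e) (h0 e')
    exact ⟨supp v f, (hC _).2 ⟨f, ⟨e, h1⟩, rfl⟩, h1, h2⟩
  · intro K hK
    obtain ⟨T, hT, rfl, hT0⟩ := vecM_isCircuit v (Matroid.dual_isCocircuit_iff.1 hK)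
    rw [ncard_coe_finset]
    exact hgirth T hT hT0
  · rintro ⟨D, hD, hconn⟩
    obtain ⟨f, hf, rfl⟩ := (hC D).1 hD
    obtain ⟨a, b, hab, ha, hb⟩ := hco f
    obtain ⟨C, hCc, -, -⟩ := hconn a (by rw [Matroid.delete_ground, hE]; exact ⟨mem_univ _, ha⟩)
      b (by rw [Matroid.delete_ground, hE]; exact ⟨mem_univ _, hb⟩) hab
    obtain ⟨hC1, hdisj⟩ := Matroid.delete_isCircuit_iff.1 hCc
    obtain ⟨g, hg, rfl⟩ := (hC C).1 hC1
    exact hint g f hg hf hdisj

end Pool.Agent.MP_6a070e_co
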