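import Mathlib.Algebra.Order.Ring.Star
import Pool.Agent.MP_6a070e_co.VecMatroid

set_option autoImplicit false

open Set

namespace Pool.Agent.MP_6a070e_co

/-- The columns `(x, x^3)`, `x` a nonzero element of the field with 32 elements, as 10-bit words. -/
def cols : List ℕ := [33, 258, 483, 324, 997, 742, 135, 840, 809, 106, 203, 300, 973, 174, 655,
  464, 593, 722, 403, 788, 533, 694, 887, 88, 921, 378, 635, 444, 253, 574, 959]

def w (e : Fin 31) : ℕ := cols.getD e 0

def ofB (b : Bool) : ZMod 2 := if b then 1 else 0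

lemma ofB_xor (a b : Bool) : ofB (a ^^ b) = ofB a + ofB b := by
  revert a b; decide

lemma ofB_and (a b : Bool) : ofB (a && b) = ofB a * ofB b := by
  revert a b; decide

lemma ofB_ne_zero (a : Bool) : ofB a ≠ 0 ↔ a = true := by
  revert a; decide

lemma ofB_decide (a : ZMod 2) : ofB (decide (a = 1)) = a := by
  revert a; decide

def toV (n : ℕ) : Fin 10 → ZMod 2 := fun j => ofB (n.testBit j)

lemma toV_xor (a b : ℕ) : toV (a ^^^ b) = toV a + toV b := by
  funext j
  simp [toV, Nat.testBit_xor, ofB_xor]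

lemma toV_eq_zero {n : ℕ} (hn : n < 2 ^ 10) (h : toV n = 0) : n = 0 := by
  apply Nat.eq_of_testBit_eq
  intro i
  rw [Nat.zero_testBit]
  by_cases hi : i < 10
  · have := congrFun h ⟨i, hi⟩
    by_contra hne
    have h2 : n.testBit i = true := by simpa using hne
    exact (ofB_ne_zero _).2 h2 this
  · exact Nat.testBit_lt_two_pow (lt_of_lt_of_le hn (Nat.pow_le_pow_right (by norm_num) (by omega)))

def vv (e : Fin 31) : Fin 10 → ZMod 2 := toV (w e)

def dot (n m : ℕ) : Bool :=
  (n.testBit 0 && m.testBit 0) ^^ ((n.testBit 1 && m.testBit 1) ^^ ((n.testBit 2 && m.testBit 2) ^^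
  ((n.testBit 3 && m.testBit 3) ^^ ((n.testBit 4 && m.testBit 4) ^^ ((n.testBit 5 && m.testBit 5) ^^
  ((n.testBit 6 && m.testBit 6) ^^ ((n.testBit 7 && m.testBit 7) ^^ ((n.testBit 8 && m.testBit 8) ^^
  (n.testBit 9 && m.testBit 9)))))))))

lemma ofB_dot (n m : ℕ) : ofB (dot n m) = ∑ j : Fin 10, toV n j * toV m j := by
  simp only [dot, ofB_xor, ofB_and, toV, Fin.sum_univ_succ, Fin.sum_univ_zero]
  simp

lemma functional_eq (f : (Fin 10 → ZMod 2) →ₗ[ZMod 2] ZMod 2) :
    ∃ n < 2 ^ 10, ∀ m, f (toV m) = ofB (dot m n) := by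
  refine ⟨Nat.ofBits (fun j : Fin 10 => decide (f (fun i => if j = i then 1 else 0) = 1)),
    Nat.ofBits_lt_two_pow _, fun m => ?_⟩
  rw [ofB_dot, LinearMap.pi_apply_eq_sum_univ]
  refine Finset.sum_congr rfl fun j _ => ?_
  simp only [toV, smul_eq_mul]
  rw [Nat.testBit_ofBits_lt _ _ j.2, ofB_decide]

def wt (n : ℕ) : ℕ := (Finset.univ.filter (fun e : Fin 31 => dot (w e) n = true)).card

lemma wt_check : ∀ n < 2 ^ 10, wt n = 0 ∨ (12 ≤ wt n ∧ wt n ≤ 20) := by
  decide +kernel

lemma supp_ncard (f : (Fin 10 → ZMod 2) →ₗ[ZMod 2] ZMod 2) :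
    (supp vv f).ncard = 0 ∨ (12 ≤ (supp vv f).ncard ∧ (supp vv f).ncard ≤ 20) := by
  obtain ⟨n, hn, hf⟩ := functional_eq f
  have : supp vv f = ↑(Finset.univ.filter (fun e : Fin 31 => dot (w e) n = true)) := by
    ext e
    simp only [supp, vv, hf, ofB_ne_zero, mem_ofPred_eq, Finset.coe_filter, Finset.mem_univ,
      true_and]
  rw [this, ncard_coe_finset]
  exact wt_check n hn

lemma w_lt : ∀ e : Fin 31, w e < 2 ^ 10 := by decide +kernel

lemma w_ne : ∀ e : Fin 31, w e ≠ 0 := by decide +kernel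

lemma w_two : ∀ a b : Fin 31, w a ^^^ w b = 0 → a = b := by decide +kernel

def mask : ℕ := (cols.map (fun c => 2 ^ c)).sum + 1

lemma mask_zero : mask.testBit 0 = true := by decide +kernel

lemma mask_w : ∀ e : Fin 31, mask.testBit (w e) = true := by decide +kernel

lemma w_three : ∀ a b c : Fin 31, mask.testBit (w a ^^^ (w b ^^^ w c)) = true →
    a = b ∨ a = c ∨ b = c := by decide +kernel

end Pool.Agent.MP_6a070e_co
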