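import Mathlib.Data.Nat.Bitwise
import Pool.Agent.MP_6a070e_co.Data

set_option autoImplicit false

open Set

namespace Pool.Agent.MP_6a070e_co

lemma xor_lt {a b : ℕ} (ha : a < 2 ^ 10) (hb : b < 2 ^ 10) : a ^^^ b < 2 ^ 10 :=
  Nat.xor_lt_two_pow ha hb

lemma vv_ne_zero (e : Fin 31) : vv e ≠ 0 := fun h => w_ne e (toV_eq_zero (w_lt e) h)

lemma vv_girth (T : Finset (Fin 31)) (hT : T.Nonempty) (h0 : ∑ e ∈ T, vv e = 0) : 5 ≤ T.card := by
  by_contra hlt
  have hpos := hT.card_pos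
  have hc : T.card = 1 ∨ T.card = 2 ∨ T.card = 3 ∨ T.card = 4 := by omega
  rcases hc with h | h | h | h
  · obtain ⟨a, rfl⟩ := Finset.card_eq_one.1 h
    rw [Finset.sum_singleton] at h0
    exact vv_ne_zero a h0
  · obtain ⟨a, b, hab, rfl⟩ := Finset.card_eq_two.1 h
    rw [Finset.sum_pair hab] at h0
    apply hab
    apply w_two
    apply toV_eq_zero (xor_lt (w_lt a) (w_lt b))
    rw [toV_xor]; exact h0
  · obtain ⟨a, b, c, hab, hac, hbc, rfl⟩ := Finset.card_eq_three.1 h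
    rw [Finset.sum_insert (by simp [hab, hac]), Finset.sum_pair hbc] at h0
    have h1 : w a ^^^ (w b ^^^ w c) = 0 := by
      apply toV_eq_zero (xor_lt (w_lt a) (xor_lt (w_lt b) (w_lt c)))
      rw [toV_xor, toV_xor]; exact h0
    have := w_three a b c (by rw [h1]; exact mask_zero)
    tauto
  · obtain ⟨d, S, hd, rfl, hS⟩ := Finset.card_eq_succ.1 h
    obtain ⟨a, b, c, hab, hac, hbc, rfl⟩ := Finset.card_eq_three.1 hS
    rw [Finset.sum_insert hd, Finset.sum_insert (by simp [hab, hac]), Finset.sum_pair hbc] at h0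
    have h1 : w d ^^^ (w a ^^^ (w b ^^^ w c)) = 0 := by
      apply toV_eq_zero (xor_lt (w_lt d) (xor_lt (w_lt a) (xor_lt (w_lt b) (w_lt c))))
      rw [toV_xor, toV_xor, toV_xor]; exact h0
    have h2 : w a ^^^ (w b ^^^ w c) = w d := (Nat.xor_eq_zero_iff.1 h1).symm
    have := w_three a b c (by rw [h2]; exact mask_w d)
    tauto

lemma vv_int (f g : (Fin 10 → ZMod 2) →ₗ[ZMod 2] ZMod 2) (hf : (supp vv f).Nonempty)
    (hg : (supp vv g).Nonempty) : ¬ Disjoint (supp vv f) (supp vv g) := by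
  intro hd
  have hu : supp vv (f + g) = supp vv f ∪ supp vv g := by
    ext x
    have : x ∈ supp vv f → x ∉ supp vv g := fun h => Set.disjoint_left.1 hd h
    simp only [supp, mem_ofPred_eq, LinearMap.add_apply, zmod2_add_ne_zero, mem_union] at this ⊢
    tauto
  have h1 := supp_ncard f
  have h2 := supp_ncard g
  have h3 := supp_ncard (f + g)
  rw [hu, ncard_union_eq hd] at h3
  have h4 := (ncard_pos (toFinite _)).2 hf
  have h5 := (ncard_pos (toFinite _)).2 hg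
  omega

lemma vv_co (f : (Fin 10 → ZMod 2) →ₗ[ZMod 2] ZMod 2) :
    ∃ a b : Fin 31, a ≠ b ∧ a ∉ supp vv f ∧ b ∉ supp vv f := by
  have h1 := supp_ncard f
  have h2 := ncard_add_ncard_compl (supp vv f)
  rw [Nat.card_eq_fintype_card, Fintype.card_fin] at h2
  have h3 : 1 < (supp vv f)ᶜ.ncard := by omega
  obtain ⟨a, b, ha, hb, hab⟩ := (one_lt_ncard_iff (toFinite _)).1 h3
  exact ⟨a, b, hab, ha, hb⟩

theorem bch_counterexample :
    ∃ M : Matroid (Fin 31), M.E.Nonempty ∧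
      (∀ C K : Set (Fin 31), M.IsCircuit C → M.IsCocircuit K → Even (C ∩ K).ncard) ∧
      (∀ e ∈ M.E, ∀ f ∈ M.E, e ≠ f → ∃ C : Set (Fin 31), M.IsCircuit C ∧ e ∈ C ∧ f ∈ C) ∧
      (∀ K : Set (Fin 31), M.IsCocircuit K → 5 ≤ K.ncard) ∧
      ¬ ∃ D : Set (Fin 31), M.IsCircuit D ∧
        ∀ e ∈ (M.delete D).E, ∀ f ∈ (M.delete D).E, e ≠ f →
          ∃ C : Set (Fin 31), (M.delete D).IsCircuit C ∧ e ∈ C ∧ f ∈ C :=
  counterexample_of vv 5 ⟨0⟩ vv_ne_zero vv_girth vv_int vv_co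

end Pool.Agent.MP_6a070e_co
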